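import Pool.Agent.Helper7.HL.Stmts

/-!
# HL row SK

`Dl * det (Gm (β_i))`: the coefficient is symmetric in the two vectors.
-/

namespace Pool.Agent.Helper86.HL

open Finset MvPolynomial
open Pool.Agent.Helper7.HL Pool.Agent.Helper32.HG

/-- matrices with row sums `r` and column sums `c` -/
def Mt (k : ℕ) (r c : Fin k → ℕ) : Finset (Fin k → Fin k → ℕ) :=
  (Fintype.piFinset (fun i => piAntidiag (univ : Finset (Fin k)) (r i))).filter
    (fun D => ∀ m, ∑ i, D i m = c m)

theorem mem_Mt {k : ℕ} {r c : Fin k → ℕ} {D : Fin k → Fin k → ℕ} :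
    D ∈ Mt k r c ↔ (∀ i, ∑ m, D i m = r i) ∧ ∀ m, ∑ i, D i m = c m := by
  simp [Mt, Fintype.mem_piFinset, mem_piAntidiag]

theorem prod_monomial {σ ι : Type} {R : Type} [CommRing R] (s : Finset ι) (e : ι → σ →₀ ℕ)
    (a : ι → R) : ∏ i ∈ s, monomial (e i) (a i) = monomial (∑ i ∈ s, e i) (∏ i ∈ s, a i) := by
  classical
  induction s using Finset.induction_on with
  | empty => simp
  | insert i s hi ih =>
    rw [prod_insert hi, sum_insert hi, prod_insert hi, ih, monomial_mul]

theorem coeff_prod_rows {k : ℕ} {S : Type} [CommRing S] (r c : Fin k → ℕ)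
    (w : Fin k → (Fin k → ℕ) → S) :
    coeff (ex c) (∏ i, ∑ d ∈ piAntidiag (univ : Finset (Fin k)) (r i),
      monomial (ex d) (w i d)) = ∑ D ∈ Mt k r c, ∏ i, w i (D i) := by
  classical
  rw [Finset.prod_univ_sum, coeff_sum, Mt, sum_filter]
  refine sum_congr rfl fun D _ => ?_
  rw [prod_monomial, coeff_monomial]
  refine if_congr ?_ rfl rfl
  constructor
  · intro h m
    have := DFunLike.congr_fun h m
    simpa [Finsupp.finsetSum_apply, ex_apply] using this
  · intro h
    ext m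
    simpa [Finsupp.finsetSum_apply, ex_apply] using h m

/-- the coefficient -/
noncomputable def Fc {k : ℕ} {S : Type} [CommRing S] (A P : ℕ → S) (r c : Fin k → ℕ) : S :=
  ∑ σ : Equiv.Perm (Fin k), ((Equiv.Perm.sign σ : ℤ) : S) *
    ∑ D ∈ Mt k (fun i => r (σ i)) c, ∏ i, ∏ m, (if m = i then A (D i m) else P (D i m))

theorem Fc_symm {k : ℕ} {S : Type} [CommRing S] (A P : ℕ → S) (r c : Fin k → ℕ) :
    Fc A P r c = Fc A P c r := by
  classical
  unfold Fc
  refine Fintype.sum_equiv (Equiv.inv (Equiv.Perm (Fin k))) _ _ fun σ => ?_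
  rw [Equiv.inv_apply, Equiv.Perm.sign_inv]
  congr 1
  refine Finset.sum_nbij' (fun D => fun i m => D (σ⁻¹ m) (σ⁻¹ i))
    (fun D => fun i m => D (σ m) (σ i)) ?_ ?_ ?_ ?_ ?_
  · intro D hD
    rw [mem_Mt] at hD ⊢
    refine ⟨fun i => ?_, fun m => ?_⟩
    · rw [← hD.2 (σ⁻¹ i)]
      exact Equiv.sum_comp σ⁻¹ (fun m => D m (σ⁻¹ i))
    · have h := hD.1 (σ⁻¹ m)
      have e : σ (σ⁻¹ m) = m := by simp
      rw [e] at h
      rw [← h]
      exact Equiv.sum_comp σ⁻¹ (fun i => D (σ⁻¹ m) i)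
  · intro D hD
    rw [mem_Mt] at hD ⊢
    refine ⟨fun i => ?_, fun m => ?_⟩
    · rw [← hD.2 (σ i)]
      exact Equiv.sum_comp σ (fun m => D m (σ i))
    · have h := hD.1 (σ m)
      have e : σ⁻¹ (σ m) = m := by simp
      rw [e] at h
      rw [← h]
      exact Equiv.sum_comp σ (fun i => D (σ m) i)
  · intro D _
    funext i m
    simp
  · intro D _
    funext i m
    simp
  · intro D _
    symm
    calc ∏ i, ∏ m, (if m = i then A (D (σ⁻¹ m) (σ⁻¹ i)) else P (D (σ⁻¹ m) (σ⁻¹ i)))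
        = ∏ i, ∏ m, (if m = i then A (D m i) else P (D m i)) := by
          rw [← Equiv.prod_comp σ⁻¹ (fun i => ∏ m, (if m = i then A (D m i) else P (D m i)))]
          refine prod_congr rfl fun i _ => ?_
          rw [← Equiv.prod_comp σ⁻¹
            (fun m => (if m = σ⁻¹ i then A (D m (σ⁻¹ i)) else P (D m (σ⁻¹ i))))]
          refine prod_congr rfl fun m _ => ?_
          refine if_congr ?_ rfl rfl
          exact (σ⁻¹.injective.eq_iff).symm
      _ = ∏ i, ∏ m, (if m = i then A (D i m) else P (D i m)) := by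
          rw [prod_comm]
          refine prod_congr rfl fun i _ => prod_congr rfl fun m _ => ?_
          exact if_congr eq_comm rfl rfl

theorem coeff_Dl_det (h1 : ST_EM) (h2 : ST_NU) (K : Type) [Field K] (q t : K) (hq : GQ q)
    (k : ℕ) (c r : Fin k → ℕ) :
    coeff (ex c) (Dl k K *
      Matrix.det (Matrix.of fun i j : Fin k => Gm q t 1 k (dl k j) (r i))) =
    Fc (fun d => (1 - q ^ d) * ph q t d) (pp q t) r c := by
  classical
  rw [← (h1 k K).2, mul_comm, ← Matrix.det_mul, Matrix.det_apply', coeff_sum]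
  unfold Fc
  refine sum_congr rfl fun σ _ => ?_
  rw [← map_intCast (C : K →+* MvPolynomial (Fin k) K), coeff_C_mul]
  congr 1
  rw [← coeff_prod_rows (fun i => r (σ i)) c
    (fun i d => ∏ m, (if m = i then (1 - q ^ (d m)) * ph q t (d m) else pp q t (d m)))]
  congr 1
  refine prod_congr rfl fun i _ => ?_
  rw [← h2 K q t hq k (r (σ i)) i, Matrix.mul_apply]
  refine sum_congr rfl fun j _ => ?_
  rw [Matrix.of_apply, mul_comm]

theorem st_SK (h1 : ST_EM) (h2 : ST_NU) : ST_SK := by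
  intro K _ q t hq k β β'
  rw [coeff_Dl_det h1 h2 K q t hq k β β', coeff_Dl_det h1 h2 K q t hq k β' β, Fc_symm]

end Pool.Agent.Helper86.HL
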